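import Mathlib
import Pool.Agent.Helper26.KC.StFM
import Pool.Agent.Helper91.KC.DivBound

/-!
# Project KS, FM-3: fourth moment of Dirichlet polynomials from the mean value theorem
-/

set_option autoImplicit false
open MeasureTheory Finset

namespace Pool.Agent.Helper5.KC

open Pool.Agent.Helper26.KC (FMmv2 FMmv4a FMmv4b)

/-- coefficients of the square of `∑_{M < n ≤ L} a n n^(it)` -/
noncomputable def sqC (M L : ℕ) (a : ℕ → ℂ) (n : ℕ) : ℂ :=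
  ∑ p ∈ (Ioc M L ×ˢ Ioc M L).filter (fun p => p.1 * p.2 = n), a p.1 * a p.2

theorem sq_eq (M L : ℕ) (a : ℕ → ℂ) (s : ℂ) :
    (∑ n ∈ Ioc M L, a n * (n : ℂ) ^ s) ^ 2 =
      ∑ n ∈ Icc 1 (L ^ 2), sqC M L a n * (n : ℂ) ^ s := by
  have h1 : (∑ n ∈ Ioc M L, a n * (n : ℂ) ^ s) ^ 2 =
      ∑ p ∈ Ioc M L ×ˢ Ioc M L, a p.1 * a p.2 * ((p.1 * p.2 : ℕ) : ℂ) ^ s := by
    rw [sq, Finset.sum_mul_sum, Finset.sum_product]
    refine Finset.sum_congr rfl (fun x _ => Finset.sum_congr rfl (fun y _ => ?_))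
    rw [Nat.cast_mul, Complex.natCast_mul_natCast_cpow]
    ring
  rw [h1, ← Finset.sum_fiberwise_of_maps_to (g := fun p : ℕ × ℕ => p.1 * p.2)
    (t := Icc 1 (L ^ 2)) (fun p hp => ?_)]
  · refine Finset.sum_congr rfl (fun n _ => ?_)
    rw [sqC, Finset.sum_mul]
    refine Finset.sum_congr rfl (fun p hp => ?_)
    rw [(Finset.mem_filter.1 hp).2]
  · simp only [Finset.mem_product, Finset.mem_Ioc] at hp
    rw [Finset.mem_Icc]
    constructor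
    · exact Nat.one_le_iff_ne_zero.2 (Nat.mul_ne_zero (by omega) (by omega))
    · rw [sq]
      exact Nat.mul_le_mul hp.1.2 hp.2.2

theorem sqC_eq_zero {M L : ℕ} {a : ℕ → ℂ} {n : ℕ} (hn : n ≤ M ^ 2) : sqC M L a n = 0 := by
  rw [sqC, Finset.filter_false_of_mem, Finset.sum_empty]
  intro p hp h
  simp only [Finset.mem_product, Finset.mem_Ioc] at hp
  have : M ^ 2 < p.1 * p.2 := by nlinarith [hp.1.1, hp.2.1]
  omega

theorem norm_sqC_le {M L : ℕ} {a : ℕ → ℂ} {σ : ℝ} (ha : ∀ n : ℕ, 1 ≤ n → ‖a n‖ ≤ (n : ℝ) ^ (-σ))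
    {n : ℕ} (hn : 1 ≤ n) : ‖sqC M L a n‖ ≤ (n.divisors.card : ℝ) * (n : ℝ) ^ (-σ) := by
  rw [sqC]
  have h1 : ∀ p ∈ (Ioc M L ×ˢ Ioc M L).filter (fun p => p.1 * p.2 = n),
      ‖a p.1 * a p.2‖ ≤ (n : ℝ) ^ (-σ) := by
    intro p hp
    simp only [Finset.mem_filter, Finset.mem_product, Finset.mem_Ioc] at hp
    rw [norm_mul, ← hp.2, Nat.cast_mul, Real.mul_rpow (Nat.cast_nonneg _) (Nat.cast_nonneg _)]
    exact mul_le_mul (ha _ (by omega)) (ha _ (by omega)) (norm_nonneg _) (by positivity)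
  refine (norm_sum_le_of_le _ h1).trans ?_
  rw [Finset.sum_const, nsmul_eq_mul]
  refine mul_le_mul_of_nonneg_right ?_ (by positivity)
  refine Nat.cast_le.2 ?_
  have h2 : (Ioc M L ×ˢ Ioc M L).filter (fun p => p.1 * p.2 = n) ⊆ n.divisorsAntidiagonal := by
    intro p hp
    simp only [Finset.mem_filter] at hp
    rw [Nat.mem_divisorsAntidiagonal]
    exact ⟨hp.2, by omega⟩
  refine (Finset.card_le_card h2).trans (le_of_eq ?_)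
  rw [← Nat.map_div_right_divisors, Finset.card_map]

/-- the fourth moment in terms of the sum of `(T + n) n^(-2σ)` -/
theorem gen (h2 : FMmv2) (σ : ℝ) {ε : ℝ} (hε : 0 < ε) : ∃ C : ℝ, 0 < C ∧
    ∀ (M L : ℕ) (a : ℕ → ℂ) (T : ℝ), 1 ≤ T → 1 ≤ L →
    (∀ n : ℕ, 1 ≤ n → ‖a n‖ ≤ (n : ℝ) ^ (-σ)) →
    ∫ t : ℝ, Real.exp (-(t / T) ^ 2) *
        ‖∑ n ∈ Ioc M L, a n * (n : ℂ) ^ ((t : ℂ) * Complex.I)‖ ^ 4 ≤
      C * (L : ℝ) ^ ε * ∑ n ∈ Ioc (M ^ 2) (L ^ 2), (T + n) * ((n : ℝ) ^ (-σ)) ^ 2 := by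
  obtain ⟨C, hC, h⟩ := h2
  obtain ⟨D, hD, hd⟩ := Pool.Agent.Helper91.KC.card_divisors_bound (ε / 4) (by positivity)
  refine ⟨C * D ^ 2, by positivity, ?_⟩
  intro M L a T hT hL ha
  have hL0 : (0 : ℝ) < L := by exact_mod_cast hL
  have h4 : ∀ t : ℝ, Real.exp (-(t / T) ^ 2) *
        ‖∑ n ∈ Ioc M L, a n * (n : ℂ) ^ ((t : ℂ) * Complex.I)‖ ^ 4 =
      Real.exp (-(t / T) ^ 2) *
        ‖∑ n ∈ Icc 1 (L ^ 2), sqC M L a n * (n : ℂ) ^ ((t : ℂ) * Complex.I)‖ ^ 2 := by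
    intro t
    rw [← sq_eq, norm_pow]
    ring
  simp_rw [h4]
  refine (h (L ^ 2) (sqC M L a) T hT).trans ?_
  rw [show C * D ^ 2 * (L : ℝ) ^ ε * ∑ n ∈ Ioc (M ^ 2) (L ^ 2), (T + n) * ((n : ℝ) ^ (-σ)) ^ 2 =
    C * ∑ n ∈ Ioc (M ^ 2) (L ^ 2), (D ^ 2 * (L : ℝ) ^ ε) * ((T + n) * ((n : ℝ) ^ (-σ)) ^ 2) by
      rw [← Finset.mul_sum]; ring]
  refine mul_le_mul_of_nonneg_left ?_ hC.le
  have hsub : Ioc (M ^ 2) (L ^ 2) ⊆ Icc 1 (L ^ 2) := by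
    intro n hn
    rw [Finset.mem_Ioc] at hn
    rw [Finset.mem_Icc]
    omega
  rw [← Finset.sum_subset hsub (fun n hn hn' => ?_)]
  · refine Finset.sum_le_sum (fun n hn => ?_)
    rw [Finset.mem_Ioc] at hn
    have hn1 : 1 ≤ n := by omega
    have hn0 : (0 : ℝ) < n := by exact_mod_cast hn1
    have hb : ‖sqC M L a n‖ ≤ D * (n : ℝ) ^ (ε / 4) * (n : ℝ) ^ (-σ) :=
      (norm_sqC_le ha hn1).trans (mul_le_mul_of_nonneg_right (hd n hn1) (by positivity))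
    have hb2 : ‖sqC M L a n‖ ^ 2 ≤ (D * (n : ℝ) ^ (ε / 4) * (n : ℝ) ^ (-σ)) ^ 2 :=
      pow_le_pow_left₀ (norm_nonneg _) hb 2
    have hp : ((n : ℝ) ^ (ε / 4)) ^ 2 ≤ (L : ℝ) ^ ε := by
      have h5 : (n : ℝ) ≤ (L : ℝ) ^ (2 : ℝ) := by
        rw [Real.rpow_two]
        exact_mod_cast hn.2
      have h6 : (n : ℝ) ^ (ε / 4) ≤ ((L : ℝ) ^ (2 : ℝ)) ^ (ε / 4) :=
        Real.rpow_le_rpow hn0.le h5 (by positivity)
      have h7 : ((n : ℝ) ^ (ε / 4)) ^ 2 ≤ (((L : ℝ) ^ (2 : ℝ)) ^ (ε / 4)) ^ 2 :=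
        pow_le_pow_left₀ (by positivity) h6 2
      refine h7.trans (le_of_eq ?_)
      rw [← Real.rpow_mul hL0.le, ← Real.rpow_natCast, ← Real.rpow_mul hL0.le]
      congr 1
      push_cast
      ring
    have hTn : 0 ≤ T + n := by linarith
    calc (T + n) * ‖sqC M L a n‖ ^ 2
        ≤ (T + n) * (D * (n : ℝ) ^ (ε / 4) * (n : ℝ) ^ (-σ)) ^ 2 :=
          mul_le_mul_of_nonneg_left hb2 hTn
      _ = D ^ 2 * ((n : ℝ) ^ (ε / 4)) ^ 2 * ((T + n) * ((n : ℝ) ^ (-σ)) ^ 2) := by ring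
      _ ≤ D ^ 2 * (L : ℝ) ^ ε * ((T + n) * ((n : ℝ) ^ (-σ)) ^ 2) := by
          refine mul_le_mul_of_nonneg_right ?_ (by positivity)
          exact mul_le_mul_of_nonneg_left hp (by positivity)
  · rw [Finset.mem_Icc] at hn
    rw [Finset.mem_Ioc] at hn'
    rw [sqC_eq_zero (by omega), norm_zero]
    ring

theorem mv4a : FMmv2 → FMmv4a := by
  intro h2 ε hε
  obtain ⟨C, hC, h⟩ := gen h2 (1 / 2) (half_pos hε)
  refine ⟨C * (1 + 2 / (ε / 2)), by positivity, ?_⟩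
  intro L a T hT hL ha
  have hL0 : (0 : ℝ) < L := by exact_mod_cast hL
  have hL1 : (1 : ℝ) ≤ L := by exact_mod_cast hL
  have h3 := h 0 L a T hT hL ha
  have e1 : Ioc 0 L = Icc 1 L := by
    ext n; rw [Finset.mem_Ioc, Finset.mem_Icc]; omega
  rw [e1] at h3
  refine h3.trans ?_
  have h5 : ∑ n ∈ Ioc (0 ^ 2) (L ^ 2), (T + (n : ℝ)) * ((n : ℝ) ^ (-(1 / 2) : ℝ)) ^ 2 ≤
      (1 + 2 / (ε / 2)) * (L : ℝ) ^ (ε / 2) * (T + (L : ℝ) ^ 2) := by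
    have e2 : ∀ n ∈ Ioc (0 ^ 2) (L ^ 2), (T + (n : ℝ)) * ((n : ℝ) ^ (-(1 / 2) : ℝ)) ^ 2 =
        T * (n : ℝ)⁻¹ + 1 := by
      intro n hn
      rw [Finset.mem_Ioc] at hn
      have hn0 : (0 : ℝ) < n := by exact_mod_cast (by omega : 0 < n)
      rw [← Real.rpow_natCast, ← Real.rpow_mul hn0.le]
      rw [show (-(1 / 2) : ℝ) * ((2 : ℕ) : ℝ) = -1 by norm_num, Real.rpow_neg_one]
      field_simp
    rw [Finset.sum_congr rfl e2, Finset.sum_add_distrib, ← Finset.mul_sum]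
    have e3 : Ioc (0 ^ 2) (L ^ 2) = Icc 1 (L ^ 2) := by
      ext n; rw [Finset.mem_Ioc, Finset.mem_Icc]; omega
    have h6 : ∑ n ∈ Icc 1 (L ^ 2), ((n : ℝ))⁻¹ ≤ 1 + Real.log ((L : ℝ) ^ 2) := by
      have := harmonic_le_one_add_log (L ^ 2)
      rw [harmonic_eq_sum_Icc] at this
      push_cast at this
      exact this
    have h7 : Real.log ((L : ℝ) ^ 2) ≤ 2 * ((L : ℝ) ^ (ε / 2) / (ε / 2)) := by
      rw [Real.log_pow]
      have := Real.log_le_rpow_div hL0.le (half_pos hε)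
      push_cast
      linarith
    have h8 : (1 : ℝ) ≤ (L : ℝ) ^ (ε / 2) := Real.one_le_rpow hL1 (by positivity)
    rw [e3, Finset.sum_const, Nat.card_Icc, nsmul_eq_mul, mul_one]
    have h9 : ((L ^ 2 + 1 - 1 : ℕ) : ℝ) = (L : ℝ) ^ 2 := by
      rw [Nat.add_sub_cancel]; push_cast; rfl
    rw [h9]
    have h10 : (1 : ℝ) + Real.log ((L : ℝ) ^ 2) ≤ (1 + 2 / (ε / 2)) * (L : ℝ) ^ (ε / 2) := by
      have : 2 * ((L : ℝ) ^ (ε / 2) / (ε / 2)) = 2 / (ε / 2) * (L : ℝ) ^ (ε / 2) := by ring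
      nlinarith
    have h11 : (1 : ℝ) ≤ (1 + 2 / (ε / 2)) * (L : ℝ) ^ (ε / 2) := by
      have : 0 ≤ Real.log ((L : ℝ) ^ 2) := Real.log_nonneg (one_le_pow₀ hL1)
      linarith
    have h12 : 0 ≤ (L : ℝ) ^ 2 := by positivity
    nlinarith [mul_le_mul_of_nonneg_left (h6.trans h10) (by linarith : (0 : ℝ) ≤ T),
      mul_le_mul_of_nonneg_right h11 h12]
  have h13 : (L : ℝ) ^ (ε / 2) * (L : ℝ) ^ (ε / 2) ≤ (T * L) ^ ε := by
    rw [← Real.rpow_add hL0, add_halves]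
    exact Real.rpow_le_rpow hL0.le (by nlinarith) hε.le
  have h14 : 0 ≤ T + (L : ℝ) ^ 2 := by positivity
  calc C * (L : ℝ) ^ (ε / 2) * ∑ n ∈ Ioc (0 ^ 2) (L ^ 2), (T + (n : ℝ)) * ((n : ℝ) ^ (-(1 / 2) : ℝ)) ^ 2
      ≤ C * (L : ℝ) ^ (ε / 2) * ((1 + 2 / (ε / 2)) * (L : ℝ) ^ (ε / 2) * (T + (L : ℝ) ^ 2)) :=
        mul_le_mul_of_nonneg_left h5 (by positivity)
    _ = C * (1 + 2 / (ε / 2)) * ((L : ℝ) ^ (ε / 2) * (L : ℝ) ^ (ε / 2)) * (T + (L : ℝ) ^ 2) := by ring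
    _ ≤ C * (1 + 2 / (ε / 2)) * (T * L) ^ ε * (T + (L : ℝ) ^ 2) := by
        refine mul_le_mul_of_nonneg_right ?_ h14
        exact mul_le_mul_of_nonneg_left h13 (by positivity)

theorem tele_step {x y : ℝ} (hx : 0 < x) (hy : 0 < y) (h : y ^ 2 = x ^ 2 + 1) :
    1 / (y ^ 2 * y) ≤ 2 * (1 / x - 1 / y) := by
  have hxy : x ≤ y := by nlinarith
  have h1 : 2 * (1 / x - 1 / y) = 2 / (x * y * (x + y)) := by
    have : (y - x) * (x + y) = 1 := by nlinarith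
    have h2 : x + y ≠ 0 := by positivity
    field_simp
    linear_combination this
  rw [h1, div_le_div_iff₀ (by positivity) (by positivity)]
  nlinarith [mul_pos hx hy, mul_nonneg (mul_pos hx hy).le (sub_nonneg.2 hxy), mul_nonneg hy.le (sub_nonneg.2 hxy),
    mul_nonneg (mul_pos hy hy).le (sub_nonneg.2 hxy)]

theorem rpow_three_half {n : ℕ} (hn : 0 < n) :
    (n : ℝ) ^ (-(3 / 2) : ℝ) = 1 / (Real.sqrt n ^ 2 * Real.sqrt n) := by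
  have hn0 : (0 : ℝ) < n := by exact_mod_cast hn
  rw [Real.rpow_neg hn0.le, one_div]
  congr 1
  rw [show (3 / 2 : ℝ) = 1 + 1 / 2 by norm_num, Real.rpow_add hn0, Real.rpow_one, Real.sq_sqrt hn0.le,
    Real.sqrt_eq_rpow]

theorem tele {a b : ℕ} (ha : 1 ≤ a) (hab : a ≤ b) :
    ∑ n ∈ Ioc a b, (n : ℝ) ^ (-(3 / 2) : ℝ) ≤ 2 * (1 / Real.sqrt a - 1 / Real.sqrt b) := by
  induction b, hab using Nat.le_induction with
  | base => simp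
  | succ b hb ih =>
    rw [Finset.sum_Ioc_succ_top hb, rpow_three_half (Nat.succ_pos b)]
    have hb0 : (0 : ℝ) < b := by exact_mod_cast (by omega : 0 < b)
    have h1 := tele_step (Real.sqrt_pos.2 hb0) (Real.sqrt_pos.2 (by positivity : (0 : ℝ) < ((b + 1 : ℕ) : ℝ)))
      (by rw [Real.sq_sqrt (by positivity), Real.sq_sqrt hb0.le]; push_cast; ring)
    linarith

theorem mv4b : FMmv2 → FMmv4b := by
  intro h2 ε hε
  obtain ⟨C, hC, h⟩ := gen h2 (5 / 4) hε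
  refine ⟨C * 2, by positivity, ?_⟩
  intro M L a T hT hM hML ha
  have hL : 1 ≤ L := hM.trans hML
  have hL0 : (0 : ℝ) < L := by exact_mod_cast hL
  have hM0 : (0 : ℝ) < M := by exact_mod_cast hM
  refine (h M L a T hT hL ha).trans ?_
  have hT0 : 0 ≤ T := by linarith
  have h5 : ∑ n ∈ Ioc (M ^ 2) (L ^ 2), (T + (n : ℝ)) * ((n : ℝ) ^ (-(5 / 4) : ℝ)) ^ 2 ≤
      2 * (T / (M : ℝ) ^ 3 + 1 / (M : ℝ)) := by
    have e2 : ∀ n ∈ Ioc (M ^ 2) (L ^ 2), (T + (n : ℝ)) * ((n : ℝ) ^ (-(5 / 4) : ℝ)) ^ 2 ≤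
        (T / (M : ℝ) ^ 2 + 1) * (n : ℝ) ^ (-(3 / 2) : ℝ) := by
      intro n hn
      rw [Finset.mem_Ioc] at hn
      have hn0 : (0 : ℝ) < n := by exact_mod_cast (by omega : 0 < n)
      have hMn : (M : ℝ) ^ 2 ≤ n := by exact_mod_cast hn.1.le
      rw [← Real.rpow_natCast, ← Real.rpow_mul hn0.le]
      rw [show (-(5 / 4) : ℝ) * ((2 : ℕ) : ℝ) = -(3 / 2) + -1 by norm_num, Real.rpow_add hn0, Real.rpow_neg_one]
      rw [show (T + (n : ℝ)) * ((n : ℝ) ^ (-(3 / 2) : ℝ) * (n : ℝ)⁻¹) =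
        (T / n + 1) * (n : ℝ) ^ (-(3 / 2) : ℝ) by field_simp]
      refine mul_le_mul_of_nonneg_right ?_ (by positivity)
      have := div_le_div_of_nonneg_left hT0 (by positivity : (0 : ℝ) < (M : ℝ) ^ 2) hMn
      linarith
    refine (Finset.sum_le_sum e2).trans ?_
    rw [← Finset.mul_sum]
    have h6 := tele (Nat.one_le_pow 2 M hM) (Nat.pow_le_pow_left hML 2)
    have h7 : Real.sqrt ((M ^ 2 : ℕ) : ℝ) = M := by
      push_cast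
      exact Real.sqrt_sq hM0.le
    rw [h7] at h6
    have h8 : 0 ≤ 1 / Real.sqrt ((L ^ 2 : ℕ) : ℝ) := by positivity
    have h9 : ∑ n ∈ Ioc (M ^ 2) (L ^ 2), (n : ℝ) ^ (-(3 / 2) : ℝ) ≤ 2 * (1 / M) := by linarith
    refine (mul_le_mul_of_nonneg_left h9 (by positivity)).trans (le_of_eq ?_)
    field_simp
  have h13 : (L : ℝ) ^ ε ≤ (T * L) ^ ε := Real.rpow_le_rpow hL0.le (by nlinarith) hε.le
  have h14 : 0 ≤ T / (M : ℝ) ^ 3 + 1 / (M : ℝ) := by positivity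
  calc C * (L : ℝ) ^ ε * ∑ n ∈ Ioc (M ^ 2) (L ^ 2), (T + (n : ℝ)) * ((n : ℝ) ^ (-(5 / 4) : ℝ)) ^ 2
      ≤ C * (L : ℝ) ^ ε * (2 * (T / (M : ℝ) ^ 3 + 1 / (M : ℝ))) :=
        mul_le_mul_of_nonneg_left h5 (by positivity)
    _ = C * 2 * (L : ℝ) ^ ε * (T / (M : ℝ) ^ 3 + 1 / (M : ℝ)) := by ring
    _ ≤ C * 2 * (T * L) ^ ε * (T / (M : ℝ) ^ 3 + 1 / (M : ℝ)) := by
        refine mul_le_mul_of_nonneg_right ?_ h14
        exact mul_le_mul_of_nonneg_left h13 (by positivity)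

end Pool.Agent.Helper5.KC
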